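import Pool.Agent.R186.NatTree

/-!
# 1×n Konane: positions `S(k, m·, n)` that do not decompose across the double gap
-/

set_option autoImplicit false

namespace Pool.Agent.Results.MP_914aa3_co.NoDecomposition

open Pool.Agent.R186

/-! ### Combinatorial games -/

/-- The two players. Left plays black, Right plays white. -/
inductive Player : Type
  | left : Player
  | right : Player

/-- The opponent. -/
def Player.other : Player → Player
  | .left => .right
  | .right => .left

/-- Partizan games: a game is given by its families of left and right options. -/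
inductive Game : Type 1
  | mk (l r : Type) (L : l → Game) (R : r → Game) : Game

/-- `Opt w G H`: the player `w` can move from `G` to `H`. -/
def Opt : Player → Game → Game → Prop
  | .left, .mk _ _ L _, H => ∃ i, H = L i
  | .right, .mk _ _ _ R, H => ∃ j, H = R j

/-- `Wins G w`: under normal play the player `w` wins `G` when he moves first. -/
def Wins : Game → Player → Prop
  | .mk _ _ L _, .left => ∃ i, ¬ Wins (L i) .right
  | .mk _ _ _ R, .right => ∃ j, ¬ Wins (R j) .left

/-- The disjunctive sum of two games: a move is a move in one of the components. -/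
noncomputable def add (x : Game) : Game → Game :=
  Game.rec (motive := fun _ => Game → Game)
    (fun xl xr _ _ IHxl IHxr y =>
      Game.rec (motive := fun _ => Game)
        (fun yl yr yL yR IHyl IHyr =>
          Game.mk (xl ⊕ yl) (xr ⊕ yr)
            (Sum.elim (fun i => IHxl i (Game.mk yl yr yL yR)) IHyl)
            (Sum.elim (fun j => IHxr j (Game.mk yl yr yL yR)) IHyr)) y) x

/-- Equality of values in Conway's theory: the two games have the same outcome (who wins when Left
starts, who wins when Right starts) in every sum with a third game. -/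
def SameValue (G H : Game) : Prop :=
  ∀ (X : Game) (w : Player), Wins (add G X) w ↔ Wins (add H X) w

/-! ### Konane on a row of cells indexed by `ℤ` -/

/-- The stone at `p` jumps over the adjacent stone at `p + d` into the empty cell `p + 2 * d`; the
stone jumped over is removed (`d = 1` or `d = -1`). -/
def Hop (d : ℤ) (S : Finset ℤ) (p : ℤ) (S' : Finset ℤ) : Prop :=
  p ∈ S ∧ p + d ∈ S ∧ p + 2 * d ∉ S ∧ S' = insert (p + 2 * d) ((S.erase p).erase (p + d))

/-- One or more jumps of the stone at `p` in the direction `d`. -/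
inductive Jumps (d : ℤ) : Finset ℤ → ℤ → Finset ℤ → Prop
  | one {S S' : Finset ℤ} {p : ℤ} : Hop d S p S' → Jumps d S p S'
  | more {S S' S'' : Finset ℤ} {p : ℤ} : Hop d S p S' → Jumps d S' (p + 2 * d) S'' →
      Jumps d S p S''

/-- The cells carrying the stones of a player: stones on even cells are black (Left's), stones on
odd cells are white (Right's).  So a stone and its neighbours have opposite colours, and a jump
does not change the colour of the cell of the jumping stone. -/
def Own : Player → ℤ → Prop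
  | .left, p => Even p
  | .right, p => Odd p

/-- Konane moves of the player `w` from the set `S` of occupied cells. -/
def Move (w : Player) (S S' : Finset ℤ) : Prop :=
  ∃ p d : ℤ, Own w p ∧ (d = 1 ∨ d = -1) ∧ Jumps d S p S'

theorem Hop.card_lt {d : ℤ} {S S' : Finset ℤ} {p : ℤ} (hd : d = 1 ∨ d = -1) (h : Hop d S p S') :
    S'.card < S.card := by
  obtain ⟨h1, h2, h3, rfl⟩ := h
  have h4 : p + d ∈ S.erase p := Finset.mem_erase.2 ⟨by omega, h2⟩
  have h5 : p + 2 * d ∉ (S.erase p).erase (p + d) := fun h =>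
    h3 (Finset.mem_of_mem_erase (Finset.mem_of_mem_erase h))
  rw [Finset.card_insert_of_notMem h5, Finset.card_erase_of_mem h4, Finset.card_erase_of_mem h1]
  have h6 : 0 < (S.erase p).card := Finset.card_pos.2 ⟨_, h4⟩
  rw [Finset.card_erase_of_mem h1] at h6
  omega

theorem Jumps.card_lt {d : ℤ} {S S' : Finset ℤ} {p : ℤ} (hd : d = 1 ∨ d = -1)
    (h : Jumps d S p S') : S'.card < S.card := by
  induction h with
  | one h => exact h.card_lt hd
  | more h _ ih => exact ih.trans (h.card_lt hd)

/-- The game given by the Konane position with set `S` of occupied cells. -/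
noncomputable def value (S : Finset ℤ) : Game :=
  Game.mk {T : Finset ℤ // Move .left S T} {T : Finset ℤ // Move .right S T}
    (fun T => value T.1) (fun T => value T.1)
termination_by S.card
decreasing_by
  all_goals
    obtain ⟨T, p, d, -, hd, h⟩ := T
    exact h.card_lt hd

/-- The first two runs of `S(k, m·, n)`: `k` stones on the cells `1, …, k`, one empty cell, and `m`
stones. -/
noncomputable def firstRuns (k m : ℕ) : Finset ℤ :=
  Finset.Icc (1 : ℤ) k ∪ Finset.Icc ((k : ℤ) + 2) (k + 1 + m)

/-- The third run of `S(k, m·, n)`: `n` stones after two empty cells. -/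
noncomputable def thirdRun (k m n : ℕ) : Finset ℤ :=
  Finset.Icc ((k : ℤ) + m + 4) (k + m + 3 + n)

/-- `S(k, m·, n)` decomposes: its value is the sum of the value of the first two runs together and
the value of the third run (in its place, so with its colours). -/
def Decomposes (k m n : ℕ) : Prop :=
  SameValue (value (firstRuns k m ∪ thirdRun k m n))
    (add (value (firstRuns k m)) (value (thirdRun k m n)))

/-! ### Options -/

theorem wins_iff (G : Game) (w : Player) : Wins G w ↔ ∃ H, Opt w G H ∧ ¬ Wins H w.other := by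
  obtain ⟨l, r, L, R⟩ := G
  cases w with
  | left =>
    constructor
    · rintro ⟨i, h⟩
      exact ⟨_, ⟨i, rfl⟩, h⟩
    · rintro ⟨_, ⟨i, rfl⟩, h⟩
      exact ⟨i, h⟩
  | right =>
    constructor
    · rintro ⟨i, h⟩
      exact ⟨_, ⟨i, rfl⟩, h⟩
    · rintro ⟨_, ⟨i, rfl⟩, h⟩
      exact ⟨i, h⟩

theorem opt_add (w : Player) (G H K : Game) :
    Opt w (add G H) K ↔ (∃ G', Opt w G G' ∧ K = add G' H) ∨ ∃ H', Opt w H H' ∧ K = add G H' := by
  obtain ⟨xl, xr, xL, xR⟩ := G
  obtain ⟨yl, yr, yL, yR⟩ := H
  cases w with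
  | left =>
    constructor
    · rintro ⟨i | i, rfl⟩
      · exact Or.inl ⟨_, ⟨i, rfl⟩, rfl⟩
      · exact Or.inr ⟨_, ⟨i, rfl⟩, rfl⟩
    · rintro (⟨_, ⟨i, rfl⟩, rfl⟩ | ⟨_, ⟨i, rfl⟩, rfl⟩)
      · exact ⟨Sum.inl i, rfl⟩
      · exact ⟨Sum.inr i, rfl⟩
  | right =>
    constructor
    · rintro ⟨i | i, rfl⟩
      · exact Or.inl ⟨_, ⟨i, rfl⟩, rfl⟩
      · exact Or.inr ⟨_, ⟨i, rfl⟩, rfl⟩
    · rintro (⟨_, ⟨i, rfl⟩, rfl⟩ | ⟨_, ⟨i, rfl⟩, rfl⟩)
      · exact ⟨Sum.inl i, rfl⟩
      · exact ⟨Sum.inr i, rfl⟩

theorem opt_value (w : Player) (S : Finset ℤ) (K : Game) :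
    Opt w (value S) K ↔ ∃ T, Move w S T ∧ K = value T := by
  rw [value]
  cases w with
  | left =>
    constructor
    · rintro ⟨⟨T, hT⟩, rfl⟩
      exact ⟨T, hT, rfl⟩
    · rintro ⟨T, hT, rfl⟩
      exact ⟨⟨T, hT⟩, rfl⟩
  | right =>
    constructor
    · rintro ⟨⟨T, hT⟩, rfl⟩
      exact ⟨T, hT, rfl⟩
    · rintro ⟨T, hT, rfl⟩
      exact ⟨⟨T, hT⟩, rfl⟩

/-- A general criterion: if the interpreted states `g s` for `s` in the certificate have the
property that every move of `w` can be answered by a move into the certificate, then `w` loses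
moving first. -/
theorem cert_sound {σ : Type} (g : σ → Game) (w : Player) (a b : σ → List σ) (c : σ → Prop)
    (h1 : ∀ s G, c s → Opt w (g s) G → ∃ t ∈ a s, G = g t)
    (h2 : ∀ s t, t ∈ b s → Opt w.other (g s) (g t))
    (h3 : ∀ s, c s → ∀ t ∈ a s, ∃ u ∈ b t, c u) (s : σ) (hs : c s) : ¬ Wins (g s) w := by
  have hw : w.other.other = w := by cases w <;> rfl
  have key : ∀ G : Game, (∀ s, c s → G = g s → ¬ Wins G w) ∧
      (∀ s u, u ∈ b s → c u → G = g s → Wins G w.other) := by
    intro G
    induction G with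
    | mk l r L R ihL ihR =>
      have ih : ∀ v H, Opt v (Game.mk l r L R) H → (∀ s, c s → H = g s → ¬ Wins H w) ∧
          (∀ s u, u ∈ b s → c u → H = g s → Wins H w.other) := by
        intro v H hH
        cases v with
        | left => obtain ⟨i, rfl⟩ := hH; exact ihL i
        | right => obtain ⟨i, rfl⟩ := hH; exact ihR i
      constructor
      · intro s hs hG hwin
        rw [wins_iff] at hwin
        obtain ⟨H, hH, hH2⟩ := hwin
        have hH' := hH
        rw [hG] at hH'
        obtain ⟨t, ht, rfl⟩ := h1 s H hs hH'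
        obtain ⟨u, hu, hcu⟩ := h3 s hs t ht
        exact hH2 ((ih w (g t) hH).2 t u hu hcu rfl)
      · intro s u hu hcu hG
        rw [wins_iff]
        have h4 := h2 s u hu
        rw [← hG] at h4
        refine ⟨g u, h4, ?_⟩
        rw [hw]
        exact (ih _ _ h4).1 u hcu rfl
  exact (key (g s)).1 s hs rfl

/-! ### Positions as bitmasks: cell `x` corresponds to bit `x + 12` -/

/-- the occupied cells of a bitmask -/
def cells (m : ℕ) : Finset ℤ :=
  ((Finset.range (m + 1)).filter fun i => m.testBit i = true).image fun i : ℕ => (i : ℤ) - 12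

theorem mem_cells {m : ℕ} {x : ℤ} : x ∈ cells m ↔ ∃ i : ℕ, m.testBit i = true ∧ (i : ℤ) - 12 = x := by
  simp only [cells, Finset.mem_image, Finset.mem_filter, Finset.mem_range]
  constructor
  · rintro ⟨i, ⟨-, h⟩, h2⟩
    exact ⟨i, h, h2⟩
  · rintro ⟨i, h, h2⟩
    refine ⟨i, ⟨?_, h⟩, h2⟩
    have h3 : 2 ^ i ≤ m := Nat.ge_two_pow_of_testBit h
    have h4 : i < 2 ^ i := Nat.lt_two_pow_self
    omega

theorem mem_cells' {m i : ℕ} {x : ℤ} (hx : (i : ℤ) - 12 = x) : x ∈ cells m ↔ m.testBit i = true := by
  rw [mem_cells]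
  constructor
  · rintro ⟨j, h, h2⟩
    have : j = i := by omega
    rwa [← this]
  · intro h
    exact ⟨i, h, hx⟩

theorem testBit_seven (j i : ℕ) :
    (7 <<< i : ℕ).testBit j = decide (j = i ∨ j = i + 1 ∨ j = i + 2) := by
  rw [Nat.testBit_shiftLeft]
  by_cases h : i ≤ j
  · obtain ⟨d, rfl⟩ := Nat.exists_eq_add_of_le h
    have h1 : (i + d - i) = d := by omega
    rw [h1]
    rcases Nat.lt_or_ge d 3 with h2 | h2
    · interval_cases d <;> simp <;> decide
    · have h3 : Nat.testBit 7 d = false :=
        Nat.testBit_lt_two_pow (lt_of_lt_of_le (by norm_num) (Nat.pow_le_pow_right (by norm_num) h2))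
      rw [h3]
      have h4 : ¬ (i + d = i ∨ i + d = i + 1 ∨ i + d = i + 2) := by omega
      rw [decide_eq_false h4]
      simp
  · have h4 : ¬ (j = i ∨ j = i + 1 ∨ j = i + 2) := by omega
    have h5 : ¬ (j ≥ i) := by omega
    simp [h4, h5]

/-- a hop to the right in terms of masks -/
theorem hop_right {m i : ℕ} {S' : Finset ℤ} {p : ℤ} (hp : (i : ℤ) - 12 = p)
    (hi : m.testBit i = true) :
    Hop 1 (cells m) p S' ↔
      m.testBit (i + 1) = true ∧ m.testBit (i + 2) = false ∧ S' = cells (m ^^^ (7 <<< i)) := by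
  have e1 : ((i + 1 : ℕ) : ℤ) - 12 = p + 1 := by push_cast; omega
  have e2 : ((i + 2 : ℕ) : ℤ) - 12 = p + 2 * 1 := by push_cast; omega
  unfold Hop
  rw [mem_cells' hp, mem_cells' e1, mem_cells' e2, Bool.not_eq_true]
  constructor
  · rintro ⟨-, h1, h2, rfl⟩
    refine ⟨h1, h2, ?_⟩
    ext x
    simp only [Finset.mem_insert, Finset.mem_erase, mem_cells, Nat.testBit_xor, testBit_seven]
    constructor
    · rintro (rfl | ⟨h3, h4, j, h5, rfl⟩)
      · exact ⟨i + 2, by simp [h2], e2⟩
      · have h6 : ¬ (j = i ∨ j = i + 1 ∨ j = i + 2) := by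
          rintro (rfl | rfl | rfl)
          · exact h4 hp
          · exact h3 e1
          · rw [h2] at h5; exact absurd h5 (by decide)
        exact ⟨j, by simp [h5, h6], rfl⟩
    · rintro ⟨j, h3, rfl⟩
      by_cases h6 : j = i ∨ j = i + 1 ∨ j = i + 2
      · rcases h6 with rfl | rfl | rfl
        · simp [hi] at h3
        · simp [h1] at h3
        · exact Or.inl e2
      · refine Or.inr ⟨by omega, by omega, j, ?_, rfl⟩
        simpa [h6] using h3
  · rintro ⟨h1, h2, rfl⟩
    refine ⟨hi, h1, h2, ?_⟩
    ext x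
    simp only [Finset.mem_insert, Finset.mem_erase, mem_cells, Nat.testBit_xor, testBit_seven]
    constructor
    · rintro ⟨j, h3, rfl⟩
      by_cases h6 : j = i ∨ j = i + 1 ∨ j = i + 2
      · rcases h6 with rfl | rfl | rfl
        · simp [hi] at h3
        · simp [h1] at h3
        · exact Or.inl e2
      · refine Or.inr ⟨by omega, by omega, j, ?_, rfl⟩
        simpa [h6] using h3
    · rintro (rfl | ⟨h3, h4, j, h5, rfl⟩)
      · exact ⟨i + 2, by simp [h2], e2⟩
      · have h6 : ¬ (j = i ∨ j = i + 1 ∨ j = i + 2) := by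
          rintro (rfl | rfl | rfl)
          · exact h4 hp
          · exact h3 e1
          · rw [h2] at h5; exact absurd h5 (by decide)
        exact ⟨j, by simp [h5, h6], rfl⟩

/-- a hop to the left in terms of masks -/
theorem hop_left {m i : ℕ} {S' : Finset ℤ} {p : ℤ} (hp : ((i + 2 : ℕ) : ℤ) - 12 = p)
    (hi : m.testBit (i + 2) = true) :
    Hop (-1) (cells m) p S' ↔
      m.testBit (i + 1) = true ∧ m.testBit i = false ∧ S' = cells (m ^^^ (7 <<< i)) := by
  have e1 : ((i + 1 : ℕ) : ℤ) - 12 = p + -1 := by push_cast; push_cast at hp; omega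
  have e2 : ((i : ℕ) : ℤ) - 12 = p + 2 * -1 := by push_cast at hp; omega
  unfold Hop
  rw [mem_cells' hp, mem_cells' e1, mem_cells' e2, Bool.not_eq_true]
  constructor
  · rintro ⟨-, h1, h2, rfl⟩
    refine ⟨h1, h2, ?_⟩
    ext x
    simp only [Finset.mem_insert, Finset.mem_erase, mem_cells, Nat.testBit_xor, testBit_seven]
    constructor
    · rintro (rfl | ⟨h3, h4, j, h5, rfl⟩)
      · exact ⟨i, by simp [h2], e2⟩
      · have h6 : ¬ (j = i ∨ j = i + 1 ∨ j = i + 2) := by
          rintro (rfl | rfl | rfl)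
          · rw [h2] at h5; exact absurd h5 (by decide)
          · exact h3 e1
          · exact h4 hp
        exact ⟨j, by simp [h5, h6], rfl⟩
    · rintro ⟨j, h3, rfl⟩
      by_cases h6 : j = i ∨ j = i + 1 ∨ j = i + 2
      · rcases h6 with rfl | rfl | rfl
        · exact Or.inl e2
        · simp [h1] at h3
        · simp [hi] at h3
      · push_cast at hp
        refine Or.inr ⟨by omega, by omega, j, ?_, rfl⟩
        simpa [h6] using h3
  · rintro ⟨h1, h2, rfl⟩
    refine ⟨hi, h1, h2, ?_⟩
    ext x
    simp only [Finset.mem_insert, Finset.mem_erase, mem_cells, Nat.testBit_xor, testBit_seven]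
    constructor
    · rintro ⟨j, h3, rfl⟩
      by_cases h6 : j = i ∨ j = i + 1 ∨ j = i + 2
      · rcases h6 with rfl | rfl | rfl
        · exact Or.inl e2
        · simp [h1] at h3
        · simp [hi] at h3
      · push_cast at hp
        refine Or.inr ⟨by omega, by omega, j, ?_, rfl⟩
        simpa [h6] using h3
    · rintro (rfl | ⟨h3, h4, j, h5, rfl⟩)
      · exact ⟨i, by simp [h2], e2⟩
      · have h6 : ¬ (j = i ∨ j = i + 1 ∨ j = i + 2) := by
          rintro (rfl | rfl | rfl)
          · rw [h2] at h5; exact absurd h5 (by decide)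
          · exact h3 e1
          · exact h4 hp
        exact ⟨j, by simp [h5, h6], rfl⟩

/-- results of one or more hops to the right of the stone at bit `p` -/
def hopR : ℕ → ℕ → ℕ → List ℕ
  | 0, _, _ => []
  | f + 1, m, p =>
    bif m.testBit (p + 1) && !m.testBit (p + 2) then
      (m ^^^ (7 <<< p)) :: hopR f (m ^^^ (7 <<< p)) (p + 2)
    else []

/-- results of one or more hops to the left of the stone at bit `p` -/
def hopL : ℕ → ℕ → List ℕ
  | m, p + 2 =>
    bif m.testBit (p + 1) && !m.testBit p then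
      (m ^^^ (7 <<< p)) :: hopL (m ^^^ (7 <<< p)) p
    else []
  | _, _ => []

theorem xor_new (m i : ℕ) (h : m.testBit (i + 2) = false) :
    (m ^^^ (7 <<< i)).testBit (i + 2) = true := by
  rw [Nat.testBit_xor, testBit_seven, h]
  simp

theorem xor_new' (m i : ℕ) (h : m.testBit i = false) :
    (m ^^^ (7 <<< i)).testBit i = true := by
  rw [Nat.testBit_xor, testBit_seven, h]
  simp

theorem mem_hopR (f : ℕ) : ∀ (m p t : ℕ), m.testBit p = true → t ∈ hopR f m p →
    Jumps 1 (cells m) ((p : ℤ) - 12) (cells t) := by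
  induction f with
  | zero => intro m p t _ h; exact absurd h (by simp [hopR])
  | succ f ih =>
    intro m p t hp h
    rw [hopR] at h
    cases hc : (m.testBit (p + 1) && !m.testBit (p + 2)) with
    | false => rw [hc, cond_false] at h; exact absurd h (by simp)
    | true =>
      rw [hc, cond_true] at h
      rw [Bool.and_eq_true, Bool.not_eq_true'] at hc
      have h1 := (hop_right (S' := cells (m ^^^ (7 <<< p))) rfl hp).2 ⟨hc.1, hc.2, rfl⟩
      rcases List.mem_cons.1 h with rfl | h
      · exact Jumps.one h1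
      · refine Jumps.more h1 ?_
        have h2 := ih _ _ _ (xor_new m p hc.2) h
        have e : ((p + 2 : ℕ) : ℤ) - 12 = (p : ℤ) - 12 + 2 * 1 := by push_cast; ring
        rwa [e] at h2

theorem mem_hopL (p : ℕ) : ∀ (m t : ℕ), m.testBit p = true → t ∈ hopL m p →
    Jumps (-1) (cells m) ((p : ℤ) - 12) (cells t) := by
  induction p using Nat.strong_induction_on with
  | _ p ih =>
    intro m t hp h
    match p, ih, hp, h with
    | 0, _, _, h => exact absurd h (by simp [hopL])
    | 1, _, _, h => exact absurd h (by simp [hopL])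
    | p + 2, ih, hp, h =>
      rw [hopL] at h
      cases hc : (m.testBit (p + 1) && !m.testBit p) with
      | false => rw [hc, cond_false] at h; exact absurd h (by simp)
      | true =>
        rw [hc, cond_true] at h
        rw [Bool.and_eq_true, Bool.not_eq_true'] at hc
        have h1 := (hop_left (S' := cells (m ^^^ (7 <<< p))) rfl hp).2 ⟨hc.1, hc.2, rfl⟩
        rcases List.mem_cons.1 h with rfl | h
        · exact Jumps.one h1
        · refine Jumps.more h1 ?_
          have h2 := ih p (by omega) _ _ (xor_new' m p hc.2) h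
          have e : (p : ℤ) - 12 = ((p + 2 : ℕ) : ℤ) - 12 + 2 * -1 := by push_cast; ring
          rwa [e] at h2

theorem jumps_mem {d : ℤ} {S S' : Finset ℤ} {p : ℤ} (h : Jumps d S p S') : p ∈ S := by
  cases h with
  | one h => exact h.1
  | more h _ => exact h.1

theorem hopR_complete (f : ℕ) : ∀ (m p : ℕ) (S' : Finset ℤ), m.testBit p = true →
    m < 2 ^ (p + 1 + 2 * f) → Jumps 1 (cells m) ((p : ℤ) - 12) S' →
    ∃ t ∈ hopR f m p, S' = cells t := by
  induction f with
  | zero =>
    intro m p S' hp hm h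
    have h0 : m.testBit (p + 1) = false := Nat.testBit_lt_two_pow (by simpa using hm)
    have h1 : ∃ T, Hop 1 (cells m) ((p : ℤ) - 12) T := by
      cases h with
      | one h => exact ⟨_, h⟩
      | more h _ => exact ⟨_, h⟩
    obtain ⟨T, hT⟩ := h1
    rw [hop_right rfl hp, h0] at hT
    exact absurd hT.1 (by decide)
  | succ f ih =>
    intro m p S' hp hm h
    rw [hopR]
    cases h with
    | one h =>
      rw [hop_right rfl hp] at h
      rw [h.1, h.2.1]
      exact ⟨_, by simp, h.2.2⟩
    | more h h' =>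
      rw [hop_right rfl hp] at h
      rw [h.1, h.2.1]
      have e : ((p + 2 : ℕ) : ℤ) - 12 = (p : ℤ) - 12 + 2 * 1 := by push_cast; ring
      rw [h.2.2, ← e] at h'
      have h7 : (7 <<< p : ℕ) < 2 ^ (p + 2 + 1 + 2 * f) := by
        rw [Nat.shiftLeft_eq]
        calc 7 * 2 ^ p < 2 ^ 3 * 2 ^ p := by
              have : 0 < 2 ^ p := by positivity
              omega
          _ = 2 ^ (p + 3) := by ring
          _ ≤ 2 ^ (p + 2 + 1 + 2 * f) := Nat.pow_le_pow_right (by norm_num) (by omega)
      have h8 : m < 2 ^ (p + 2 + 1 + 2 * f) := by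
        have : p + 1 + 2 * (f + 1) = p + 2 + 1 + 2 * f := by ring
        rwa [this] at hm
      obtain ⟨t, ht, hS⟩ := ih _ _ _ (xor_new m p h.2.1) (Nat.xor_lt_two_pow h8 h7) h'
      refine ⟨t, ?_, hS⟩
      simp only [Bool.not_false, Bool.and_self, cond_true]
      exact List.mem_cons_of_mem _ ht

theorem hopL_complete (p : ℕ) : ∀ (m : ℕ) (S' : Finset ℤ), m.testBit p = true →
    (∀ j < p, m.testBit j = true → 2 ≤ j) → Jumps (-1) (cells m) ((p : ℤ) - 12) S' →
    ∃ t ∈ hopL m p, S' = cells t := by
  induction p using Nat.strong_induction_on with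
  | _ p ih =>
    intro m S' hp hm h
    have h1 : ∃ T, Hop (-1) (cells m) ((p : ℤ) - 12) T := by
      cases h with
      | one h => exact ⟨_, h⟩
      | more h _ => exact ⟨_, h⟩
    obtain ⟨T, hT⟩ := h1
    have hp3 : 3 ≤ p := by
      obtain ⟨j, hj, hj2⟩ := mem_cells.1 hT.2.1
      have hjp : j < p := by omega
      have := hm j hjp hj
      omega
    obtain ⟨q, rfl⟩ : ∃ q, p = q + 2 := ⟨p - 2, by omega⟩
    rw [hopL]
    cases h with
    | one h =>
      rw [hop_left rfl hp] at h
      rw [h.1, h.2.1]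
      exact ⟨_, by simp, h.2.2⟩
    | more h h' =>
      rw [hop_left rfl hp] at h
      rw [h.1, h.2.1]
      have e : (q : ℤ) - 12 = ((q + 2 : ℕ) : ℤ) - 12 + 2 * -1 := by push_cast; ring
      rw [h.2.2, ← e] at h'
      obtain ⟨t, ht, hS⟩ := ih q (by omega) _ _ (xor_new' m q h.2.1) (by
        intro j hj hj2
        rw [Nat.testBit_xor, testBit_seven] at hj2
        have h6 : ¬ (j = q ∨ j = q + 1 ∨ j = q + 2) := by omega
        exact hm j (by omega) (by simpa [h6] using hj2)) h'
      refine ⟨t, ?_, hS⟩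
      simp only [Bool.not_false, Bool.and_self, cond_true]
      exact List.mem_cons_of_mem _ ht

/-- parity of the cells of a player -/
def par : Player → ℕ
  | .left => 0
  | .right => 1

theorem own_iff (w : Player) (i : ℕ) : Own w ((i : ℤ) - 12) ↔ i % 2 = par w := by
  cases w with
  | left =>
    show Even ((i : ℤ) - 12) ↔ i % 2 = 0
    rw [Int.even_iff]
    omega
  | right =>
    show Odd ((i : ℤ) - 12) ↔ i % 2 = 1
    rw [Int.odd_iff]
    omega

/-- the moves of a player from a bitmask -/
def mv (w : ℕ) (m : ℕ) : List ℕ :=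
  (List.range 48).flatMap fun p =>
    bif Nat.beq (p % 2) w && m.testBit p then hopR 32 m p ++ hopL m p else []

theorem move_of_mem_mv {w : Player} {m t : ℕ} (h : t ∈ mv (par w) m) :
    Move w (cells m) (cells t) := by
  unfold mv at h
  rw [List.mem_flatMap] at h
  obtain ⟨p, -, h⟩ := h
  cases hc : (Nat.beq (p % 2) (par w) && m.testBit p) with
  | false => rw [hc, cond_false] at h; exact absurd h (by simp)
  | true =>
    rw [hc, cond_true, List.mem_append] at h
    rw [Bool.and_eq_true] at hc
    have h1 := Nat.eq_of_beq_eq_true hc.1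
    rcases h with h | h
    · exact ⟨_, 1, (own_iff w p).2 h1, Or.inl rfl, mem_hopR 32 m p t hc.2 h⟩
    · exact ⟨_, -1, (own_iff w p).2 h1, Or.inr rfl, mem_hopL p m t hc.2 h⟩

/-- a mask to which the completeness of `mv` applies -/
def good (m : ℕ) : Bool := Nat.blt m (2 ^ 48) && Nat.beq (m % 4) 0

theorem mem_mv_of_move {w : Player} {m : ℕ} {T : Finset ℤ} (hm : good m = true)
    (h : Move w (cells m) T) : ∃ t ∈ mv (par w) m, T = cells t := by
  unfold good at hm
  rw [Bool.and_eq_true] at hm
  have hm1 : m < 2 ^ 48 := by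
    have := hm.1
    rwa [Nat.blt_eq] at this
  have hm2 : m % 4 = 0 := Nat.eq_of_beq_eq_true hm.2
  obtain ⟨x, d, hown, hd, hJ⟩ := h
  obtain ⟨p, hp, rfl⟩ := mem_cells.1 (jumps_mem hJ)
  have h48 : p < 48 := by
    by_contra h
    have h1 : 2 ^ p ≤ m := Nat.ge_two_pow_of_testBit hp
    have h2 : 2 ^ 48 ≤ 2 ^ p := Nat.pow_le_pow_right (by norm_num) (by omega)
    omega
  rw [own_iff] at hown
  have hb : Nat.beq (p % 2) (par w) = true := by rw [hown]; exact Nat.beq_refl _
  have key : ∃ t, (t ∈ hopR 32 m p ∨ t ∈ hopL m p) ∧ T = cells t := by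
    rcases hd with rfl | rfl
    · obtain ⟨t, ht, hT⟩ := hopR_complete 32 m p T hp
        (lt_of_lt_of_le hm1 (Nat.pow_le_pow_right (by norm_num) (by omega))) hJ
      exact ⟨t, Or.inl ht, hT⟩
    · obtain ⟨t, ht, hT⟩ := hopL_complete p m T hp (by
        intro j _ hj
        by_contra h
        have hj2 : j = 0 ∨ j = 1 := by omega
        have h4 : m = 4 * (m / 4) := by omega
        rw [h4] at hj
        rcases hj2 with rfl | rfl
        · rw [Nat.testBit_zero] at hj
          simp at hj
          omega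
        · rw [Nat.testBit_succ, Nat.testBit_zero] at hj
          simp at hj
          omega) hJ
      exact ⟨t, Or.inr ht, hT⟩
  obtain ⟨t, ht, hT⟩ := key
  refine ⟨t, ?_, hT⟩
  unfold mv
  rw [List.mem_flatMap]
  refine ⟨p, List.mem_range.2 h48, ?_⟩
  rw [hb, hp]
  exact List.mem_append.2 ht

/-! ### The test games `0`, `-1`, `-1/2`, `-1/4`, `*` -/

/-- the game `0` -/
def zeroG : Game := .mk Empty Empty Empty.elim Empty.elim

/-- the game `-1 = { | 0}` -/
def negOneG : Game := .mk Empty Unit Empty.elim fun _ => zeroG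

/-- the game `-1/2 = {-1 | 0}` -/
def negHalfG : Game := .mk Unit Unit (fun _ => negOneG) fun _ => zeroG

/-- the game `-1/4 = {-1/2 | 0}` -/
def negQuarterG : Game := .mk Unit Unit (fun _ => negHalfG) fun _ => zeroG

/-- the game `* = {0 | 0}` -/
def starG : Game := .mk Unit Unit (fun _ => zeroG) fun _ => zeroG

/-- the test games -/
def tg (x : ℕ) : Game :=
  if x = 0 then zeroG else if x = 1 then negOneG else if x = 2 then negHalfG else
    if x = 3 then negQuarterG else starG

theorem tg0 : tg 0 = zeroG := by simp [tg]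
theorem tg1 : tg 1 = negOneG := by simp [tg]
theorem tg2 : tg 2 = negHalfG := by simp [tg]
theorem tg3 : tg 3 = negQuarterG := by simp [tg]
theorem tg4 : tg 4 = starG := by simp [tg]

/-- moves in the test games -/
def tm (w x : ℕ) : List ℕ :=
  bif Nat.beq w 0 then
    (bif Nat.beq x 0 then [] else bif Nat.beq x 1 then [] else bif Nat.beq x 2 then [1] else
      bif Nat.beq x 3 then [2] else bif Nat.beq x 4 then [0] else [])
  else
    (bif Nat.beq x 0 then [] else bif Nat.blt x 5 then [0] else [])

theorem opt_tg (w : Player) (x : ℕ) (hx : x < 5) (K : Game) :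
    Opt w (tg x) K ↔ ∃ y ∈ tm (par w) x, K = tg y := by
  interval_cases x <;> cases w
  · have e : tm (par .left) 0 = [] := by decide
    rw [e, tg0]
    constructor
    · rintro ⟨i, -⟩; exact i.elim
    · rintro ⟨y, hy, -⟩; exact absurd hy (by simp)
  · have e : tm (par .right) 0 = [] := by decide
    rw [e, tg0]
    constructor
    · rintro ⟨i, -⟩; exact i.elim
    · rintro ⟨y, hy, -⟩; exact absurd hy (by simp)
  · have e : tm (par .left) 1 = [] := by decide
    rw [e, tg1]
    constructor
    · rintro ⟨i, -⟩; exact i.elim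
    · rintro ⟨y, hy, -⟩; exact absurd hy (by simp)
  · have e : tm (par .right) 1 = [0] := by decide
    rw [e, tg1]
    constructor
    · rintro ⟨i, rfl⟩; exact ⟨0, by simp, tg0.symm⟩
    · rintro ⟨y, hy, rfl⟩
      rw [List.mem_singleton] at hy
      subst hy
      rw [tg0]
      exact ⟨(), rfl⟩
  · have e : tm (par .left) 2 = [1] := by decide
    rw [e, tg2]
    constructor
    · rintro ⟨i, rfl⟩; exact ⟨1, by simp, tg1.symm⟩
    · rintro ⟨y, hy, rfl⟩
      rw [List.mem_singleton] at hy
      subst hy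
      rw [tg1]
      exact ⟨(), rfl⟩
  · have e : tm (par .right) 2 = [0] := by decide
    rw [e, tg2]
    constructor
    · rintro ⟨i, rfl⟩; exact ⟨0, by simp, tg0.symm⟩
    · rintro ⟨y, hy, rfl⟩
      rw [List.mem_singleton] at hy
      subst hy
      rw [tg0]
      exact ⟨(), rfl⟩
  · have e : tm (par .left) 3 = [2] := by decide
    rw [e, tg3]
    constructor
    · rintro ⟨i, rfl⟩; exact ⟨2, by simp, tg2.symm⟩
    · rintro ⟨y, hy, rfl⟩
      rw [List.mem_singleton] at hy
      subst hy
      rw [tg2]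
      exact ⟨(), rfl⟩
  · have e : tm (par .right) 3 = [0] := by decide
    rw [e, tg3]
    constructor
    · rintro ⟨i, rfl⟩; exact ⟨0, by simp, tg0.symm⟩
    · rintro ⟨y, hy, rfl⟩
      rw [List.mem_singleton] at hy
      subst hy
      rw [tg0]
      exact ⟨(), rfl⟩
  · have e : tm (par .left) 4 = [0] := by decide
    rw [e, tg4]
    constructor
    · rintro ⟨i, rfl⟩; exact ⟨0, by simp, tg0.symm⟩
    · rintro ⟨y, hy, rfl⟩
      rw [List.mem_singleton] at hy
      subst hy
      rw [tg0]
      exact ⟨(), rfl⟩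
  · have e : tm (par .right) 4 = [0] := by decide
    rw [e, tg4]
    constructor
    · rintro ⟨i, rfl⟩; exact ⟨0, by simp, tg0.symm⟩
    · rintro ⟨y, hy, rfl⟩
      rw [List.mem_singleton] at hy
      subst hy
      rw [tg0]
      exact ⟨(), rfl⟩

/-! ### States

A state `(a, b, x)` stands for the sum `(value a + value b) + X_x`; a state `(a, x)` stands for
`value a + X_x`. -/

/-- one component -/
noncomputable def g1 (s : ℕ × ℕ) : Game := add (value (cells s.1)) (tg s.2)

/-- two components -/
noncomputable def g2 (s : ℕ × ℕ × ℕ) : Game :=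
  add (add (value (cells s.1)) (value (cells s.2.1))) (tg s.2.2)

def ops1 (w : ℕ) (s : ℕ × ℕ) : List (ℕ × ℕ) :=
  bif Nat.blt s.2 5 then
    ((mv w s.1).map fun t => (t, s.2)) ++ ((tm w s.2).map fun y => (s.1, y))
  else []

def ops2 (w : ℕ) (s : ℕ × ℕ × ℕ) : List (ℕ × ℕ × ℕ) :=
  bif Nat.blt s.2.2 5 then
    ((mv w s.1).map fun t => (t, s.2.1, s.2.2)) ++
      (((mv w s.2.1).map fun t => (s.1, t, s.2.2)) ++ ((tm w s.2.2).map fun y => (s.1, s.2.1, y)))
  else []

theorem ops1_sound (w : Player) (s t : ℕ × ℕ) (h : t ∈ ops1 (par w) s) :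
    Opt w (g1 s) (g1 t) := by
  obtain ⟨m, x⟩ := s
  unfold ops1 at h
  cases hx : Nat.blt x 5 with
  | false => simp only [hx, cond_false] at h; exact absurd h (by simp)
  | true =>
    simp only [hx, cond_true, List.mem_append, List.mem_map] at h
    rw [Nat.blt_eq] at hx
    unfold g1
    rw [opt_add]
    rcases h with ⟨m', hm', rfl⟩ | ⟨y, hy, rfl⟩
    · exact Or.inl ⟨_, (opt_value w _ _).2 ⟨_, move_of_mem_mv hm', rfl⟩, rfl⟩
    · exact Or.inr ⟨_, (opt_tg w x hx _).2 ⟨y, hy, rfl⟩, rfl⟩

theorem ops1_complete (w : Player) (s : ℕ × ℕ) (G : Game) (h1 : good s.1 = true) (h2 : s.2 < 5)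
    (h : Opt w (g1 s) G) : ∃ t ∈ ops1 (par w) s, G = g1 t := by
  obtain ⟨m, x⟩ := s
  have hx : Nat.blt x 5 = true := by rw [Nat.blt_eq]; exact h2
  unfold ops1
  simp only [hx, cond_true, List.mem_append, List.mem_map]
  unfold g1 at h
  rw [opt_add] at h
  rcases h with ⟨G', hG', rfl⟩ | ⟨H', hH', rfl⟩
  · obtain ⟨T, hT, rfl⟩ := (opt_value w _ _).1 hG'
    obtain ⟨t, ht, rfl⟩ := mem_mv_of_move h1 hT
    exact ⟨(t, x), Or.inl ⟨t, ht, rfl⟩, rfl⟩
  · obtain ⟨y, hy, rfl⟩ := (opt_tg w x h2 _).1 hH'
    exact ⟨(m, y), Or.inr ⟨y, hy, rfl⟩, rfl⟩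

theorem ops2_sound (w : Player) (s t : ℕ × ℕ × ℕ) (h : t ∈ ops2 (par w) s) :
    Opt w (g2 s) (g2 t) := by
  obtain ⟨m, n, x⟩ := s
  unfold ops2 at h
  cases hx : Nat.blt x 5 with
  | false => simp only [hx, cond_false] at h; exact absurd h (by simp)
  | true =>
    simp only [hx, cond_true, List.mem_append, List.mem_map] at h
    rw [Nat.blt_eq] at hx
    unfold g2
    rw [opt_add]
    rcases h with ⟨m', hm', rfl⟩ | ⟨m', hm', rfl⟩ | ⟨y, hy, rfl⟩
    · refine Or.inl ⟨_, ?_, rfl⟩
      rw [opt_add]
      exact Or.inl ⟨_, (opt_value w _ _).2 ⟨_, move_of_mem_mv hm', rfl⟩, rfl⟩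
    · refine Or.inl ⟨_, ?_, rfl⟩
      rw [opt_add]
      exact Or.inr ⟨_, (opt_value w _ _).2 ⟨_, move_of_mem_mv hm', rfl⟩, rfl⟩
    · exact Or.inr ⟨_, (opt_tg w x hx _).2 ⟨y, hy, rfl⟩, rfl⟩

theorem ops2_complete (w : Player) (s : ℕ × ℕ × ℕ) (G : Game) (h1 : good s.1 = true)
    (h1' : good s.2.1 = true) (h2 : s.2.2 < 5)
    (h : Opt w (g2 s) G) : ∃ t ∈ ops2 (par w) s, G = g2 t := by
  obtain ⟨m, n, x⟩ := s
  have hx : Nat.blt x 5 = true := by rw [Nat.blt_eq]; exact h2
  unfold ops2
  simp only [hx, cond_true, List.mem_append, List.mem_map]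
  unfold g2 at h
  rw [opt_add] at h
  rcases h with ⟨G', hG', rfl⟩ | ⟨H', hH', rfl⟩
  · rw [opt_add] at hG'
    rcases hG' with ⟨G'', hG'', rfl⟩ | ⟨G'', hG'', rfl⟩
    · obtain ⟨T, hT, rfl⟩ := (opt_value w _ _).1 hG''
      obtain ⟨t, ht, rfl⟩ := mem_mv_of_move h1 hT
      exact ⟨(t, n, x), Or.inl ⟨t, ht, rfl⟩, rfl⟩
    · obtain ⟨T, hT, rfl⟩ := (opt_value w _ _).1 hG''
      obtain ⟨t, ht, rfl⟩ := mem_mv_of_move h1' hT
      exact ⟨(m, t, x), Or.inr (Or.inl ⟨t, ht, rfl⟩), rfl⟩
  · obtain ⟨y, hy, rfl⟩ := (opt_tg w x h2 _).1 hH'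
    exact ⟨(m, n, y), Or.inr (Or.inr ⟨y, hy, rfl⟩), rfl⟩

/-- codes -/
def enc1 (s : ℕ × ℕ) : ℕ := s.1 * 8 + s.2

def dec1 (c : ℕ) : ℕ × ℕ := (c / 8, c % 8)

def enc2 (s : ℕ × ℕ × ℕ) : ℕ := (s.1 * 2 ^ 40 + s.2.1) * 8 + s.2.2

def dec2 (c : ℕ) : ℕ × ℕ × ℕ := (c / 8 / 2 ^ 40, c / 8 % 2 ^ 40, c % 8)

def ck1 (T : NatTree) (s : ℕ × ℕ) : Bool :=
  T.mem (enc1 s) && (Nat.beq s.1 (dec1 (enc1 s)).1 && Nat.beq s.2 (dec1 (enc1 s)).2)

def ck2 (T : NatTree) (s : ℕ × ℕ × ℕ) : Bool :=
  T.mem (enc2 s) && (Nat.beq s.1 (dec2 (enc2 s)).1 && (Nat.beq s.2.1 (dec2 (enc2 s)).2.1 &&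
    Nat.beq s.2.2 (dec2 (enc2 s)).2.2))

def ok1 (T : NatTree) (w v : ℕ) : Bool := T.all fun c =>
  (good (dec1 c).1 && Nat.blt (dec1 c).2 5) &&
    (ops1 w (dec1 c)).all fun t => (ops1 v t).any fun u => ck1 T u

def ok2 (T : NatTree) (w v : ℕ) : Bool := T.all fun c =>
  (good (dec2 c).1 && (good (dec2 c).2.1 && Nat.blt (dec2 c).2.2 5)) &&
    (ops2 w (dec2 c)).all fun t => (ops2 v t).any fun u => ck2 T u

theorem ok1_sound {T : NatTree} {w : Player} (h : ok1 T (par w) (par w.other) = true) (s : ℕ × ℕ)
    (hs : ck1 T s = true) : ¬ Wins (g1 s) w := by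
  have key : ∀ s, ck1 T s = true → (good s.1 = true ∧ s.2 < 5) ∧
      ∀ t ∈ ops1 (par w) s, ∃ u ∈ ops1 (par w.other) t, ck1 T u = true := by
    intro s hs
    unfold ck1 at hs
    rw [Bool.and_eq_true, Bool.and_eq_true] at hs
    have e : dec1 (enc1 s) = s :=
      Prod.ext (Nat.eq_of_beq_eq_true hs.2.1).symm (Nat.eq_of_beq_eq_true hs.2.2).symm
    have h1 := NatTree.of_all h hs.1
    rw [Bool.and_eq_true, Bool.and_eq_true, e, Nat.blt_eq, List.all_eq_true] at h1
    exact ⟨h1.1, fun t ht => List.any_eq_true.1 (h1.2 t ht)⟩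
  exact cert_sound g1 w (ops1 (par w)) (ops1 (par w.other)) (fun s => ck1 T s = true)
    (fun s G hs hG => ops1_complete w s G (key s hs).1.1 (key s hs).1.2 hG)
    (fun s t ht => ops1_sound w.other s t ht) (fun s hs => (key s hs).2) s hs

theorem ok2_sound {T : NatTree} {w : Player} (h : ok2 T (par w) (par w.other) = true)
    (s : ℕ × ℕ × ℕ) (hs : ck2 T s = true) : ¬ Wins (g2 s) w := by
  have key : ∀ s, ck2 T s = true → (good s.1 = true ∧ good s.2.1 = true ∧ s.2.2 < 5) ∧
      ∀ t ∈ ops2 (par w) s, ∃ u ∈ ops2 (par w.other) t, ck2 T u = true := by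
    intro s hs
    unfold ck2 at hs
    rw [Bool.and_eq_true, Bool.and_eq_true, Bool.and_eq_true] at hs
    have e : dec2 (enc2 s) = s :=
      Prod.ext (Nat.eq_of_beq_eq_true hs.2.1).symm
        (Prod.ext (Nat.eq_of_beq_eq_true hs.2.2.1).symm (Nat.eq_of_beq_eq_true hs.2.2.2).symm)
    have h1 := NatTree.of_all h hs.1
    rw [Bool.and_eq_true, Bool.and_eq_true, Bool.and_eq_true, e, Nat.blt_eq,
      List.all_eq_true] at h1
    exact ⟨h1.1, fun t ht => List.any_eq_true.1 (h1.2 t ht)⟩
  exact cert_sound g2 w (ops2 (par w)) (ops2 (par w.other)) (fun s => ck2 T s = true)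
    (fun s G hs hG => ops2_complete w s G (key s hs).1.1 (key s hs).1.2.1 (key s hs).1.2.2 hG)
    (fun s t ht => ops2_sound w.other s t ht) (fun s hs => (key s hs).2) s hs

/-! ### The certificates -/

open NatTree in
/-- `S(1, 2·, 2) + *`, Right to move -/
def c1 : NatTree :=
  node (node (node (node leaf 589824 leaf) 2359296 leaf) 3211268 (node leaf 4259840 leaf))
    12779520 (node (node (node leaf 13434884 leaf) 16809984 leaf) 16973828 (node leaf 17039360
    leaf))

open NatTree in
/-- `S(1, 2) + S(2) + *`, after a winning move of Right -/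
def d1 : NatTree :=
  node (node leaf 1224979098646872064 leaf) 1224979098657357828 (node leaf 1224979098661552128
    leaf)

open NatTree in
/-- `S(3, 4·, 6) - 1/4`, Left to move -/
def c3 : NatTree :=
  node (node (node (node (node (node (node (node leaf 135299072 leaf) 136642560 leaf) 138706944
    (node (node leaf 571736064 leaf) 1074823168 leaf)) 1074823171 (node (node (node leaf
    1075052544 leaf) 1075052547 leaf) 1076166656 (node leaf 1076166659 leaf))) 1078231040 (node
    (node (node (node leaf 1078231043 leaf) 3256090627 leaf) 3423862787 (node (node leaf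
    3490742275 leaf) 3492085763 leaf)) 3494150147 (node (node (node leaf 4043603971 leaf)
    4064542723 leaf) 4081352707 (node leaf 4094722051 leaf)))) 4094885891 (node (node (node
    (node (node leaf 4096065539 leaf) 4228907011 leaf) 4231266307 (node (node leaf 4241686531
    leaf) 4242866179 leaf)) 4244045827 (node (node (node leaf 4245716995 leaf) 4248076291 leaf)
    4328685568 (node leaf 4329603072 leaf))) 4329603075 (node (node (node (node leaf 4329766915
    leaf) 4329832448 leaf) 4329832449 (node (node leaf 4329832450 leaf) 4329832451 leaf))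
    4330946560 (node (node (node leaf 4330946563 leaf) 4333010944 leaf) 4333010947 (node leaf
    4333174785 leaf))))) 4333305856 (node (node (node (node (node (node leaf 4333305859 leaf)
    4431577088 leaf) 4438654976 (node (node leaf 4438884352 leaf) 4446257152 leaf)) 4446257155
    (node (node (node leaf 4446420993 leaf) 4446552064 leaf) 4463788032 (node leaf 4467195904
    leaf))) 4467195907 (node (node (node (node leaf 4478926848 leaf) 4482957312 leaf) 4497113088
    (node (node leaf 4497539075 leaf) 4497604609 leaf)) 4497604610 (node (node (node leaf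
    4500783107 leaf) 4501078019 leaf) 4563566592 (node leaf 4563566595 leaf)))) 4564385792 (node
    (node (node (node (node leaf 4564484096 leaf) 4564484098 leaf) 4564484099 (node (node leaf
    4564647937 leaf) 4564647938 leaf)) 4564713473 (node (node (node leaf 4565827584 leaf)
    4565827585 leaf) 4565827586 (node leaf 4567007233 leaf))) 4567007234 (node (node (node (node
    leaf 4567138304 leaf) 4567891968 leaf) 4567891969 (node leaf 4567891970 leaf)) 4568055809
    (node (node (node leaf 4568186880 leaf) 4568186881 leaf) 4568186882 (node leaf 5102665731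
    leaf)))))) 5109743619 (node (node (node (node (node (node (node leaf 5109972993 leaf)
    5109972994 leaf) 5113315329 (node (node leaf 5117345793 leaf) 5117345794 leaf)) 5117640705
    (node (node (node leaf 5117640706 leaf) 5134876675 leaf) 5138284546 (node leaf 5150015491
    leaf))) 5151850498 (node (node (node (node leaf 5151916033 leaf) 5154209794 leaf) 5155094530
    (node (node leaf 5155389442 leaf) 5167546371 leaf)) 5168365571 (node (node (node leaf
    5168463874 leaf) 5168463875 leaf) 5168627713 (node leaf 5168627714 leaf)))) 5168693249 (node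
    (node (node (node (node leaf 5169807361 leaf) 5169807362 leaf) 5170823171 (node (node leaf
    5170987009 leaf) 5171118083 leaf)) 5171871745 (node (node (node leaf 5171871746 leaf)
    5172166657 leaf) 5301731331 (node leaf 5302648834 leaf))) 5305008130 (node (node (node (node
    leaf 5306056705 leaf) 5315428354 leaf) 5316608002 (node (node leaf 5317787650 leaf)
    5318541315 leaf)) 5319458818 (node (node (node leaf 5319622657 leaf) 5320802305 leaf)
    5321818114 (node leaf 5321981953 leaf))))) 5322866689 (node (node (node (node (node (node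
    leaf 5323161601 leaf) 5371101184 leaf) 5371101185 (node (node leaf 5371101186 leaf)
    5371265025 leaf)) 5371396096 (node (node (node leaf 5371396097 leaf) 5371396098 leaf)
    5377261568 (node leaf 5377261571 leaf))) 5378179072 (node (node (node (node leaf 5378179074
    leaf) 5378342914 leaf) 5378408449 (node (node leaf 5379522561 leaf) 5380702210 leaf))
    5385781248 (node (node (node leaf 5385781249 leaf) 5385781250 leaf) 5385945089 (node leaf
    5386076160 leaf)))) 5386076161 (node (node (node (node (node leaf 5386076162 leaf)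
    5402394624 leaf) 5402394627 (node (node leaf 5403312128 leaf) 5403312130 leaf)) 5406720001
    (node (node (node leaf 5435981824 leaf) 5435981826 leaf) 5435981827 (node leaf 5436899328
    leaf))) 5436899329 (node (node (node (node leaf 5436899330 leaf) 5438242817 leaf) 5440307201
    (node leaf 5570166786 leaf)) 5571084289 (node (node (node leaf 5586976770 leaf) 5587894273
    leaf) 5637275649 (node leaf 5654085633 leaf))))))

open NatTree in
/-- `S(3, 4) + S(6) - 1/4`, after a winning move of Left -/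
def d3 : NatTree :=
  node (node (node (node (node leaf 2485986999710777344 leaf) 14015202045510811648 leaf)
    17618081746333466624 (node leaf 17618081746736119808 leaf)) 17798225731428286467 (node (node
    leaf 17798225731830939651 leaf) 18626888062864457728 (node leaf 18626888063267110912 leaf)))
    19527607988741210112 (node (node (node (node leaf 19635694379798102016 leaf)
    22229767764089765888 leaf) 22409911749184585731 (node leaf 22409911750258327554 leaf))
    23382689266012258304 (node (node leaf 23562833251107078147 leaf) 23562833254865174529 (node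
    leaf 23706948442941030400 leaf)))

theorem c1_ok : ok1 c1 1 0 = true := by decide +kernel

theorem d1_ok : ok2 d1 0 1 = true := by decide +kernel

theorem c3_ok : ok1 c3 0 1 = true := by decide +kernel

theorem d3_ok : ok2 d3 1 0 = true := by decide +kernel

theorem cells_eq (m : ℕ) (hm : m < 2 ^ 48) :
    cells m = ((Finset.range 48).filter fun i => m.testBit i = true).image
      fun i : ℕ => (i : ℤ) - 12 := by
  ext x
  rw [mem_cells]
  simp only [Finset.mem_image, Finset.mem_filter, Finset.mem_range]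
  constructor
  · rintro ⟨i, h, rfl⟩
    refine ⟨i, ⟨?_, h⟩, rfl⟩
    by_contra h'
    have h1 : 2 ^ i ≤ m := Nat.ge_two_pow_of_testBit h
    have h2 : 2 ^ 48 ≤ 2 ^ i := Nat.pow_le_pow_right (by norm_num) (by omega)
    omega
  · rintro ⟨i, ⟨-, h⟩, rfl⟩
    exact ⟨i, h, rfl⟩

theorem not_decomposes_of {w : Player} {k m n A B x : ℕ} {T U : NatTree}
    (hA : cells A = firstRuns k m) (hB : cells B = thirdRun k m n)
    (hAB : cells (A + B) = firstRuns k m ∪ thirdRun k m n) (hT : ok1 T (par w) (par w.other) = true)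
    (hU : ok2 U (par w.other) (par w) = true) (h1 : ck1 T (A + B, x) = true)
    (h2 : ((ops2 (par w) (A, B, x)).any fun t => ck2 U t) = true) : ¬ Decomposes k m n := by
  intro h
  have e := h (tg x) w
  have n1 : ¬ Wins (g1 (A + B, x)) w := ok1_sound hT _ h1
  obtain ⟨t, ht, hct⟩ := List.any_eq_true.1 h2
  have hw : w.other.other = w := by cases w <;> rfl
  have n2 : ¬ Wins (g2 t) w.other := ok2_sound (by rw [hw]; exact hU) t hct
  have n3 : Wins (g2 (A, B, x)) w := (wins_iff _ _).2 ⟨_, ops2_sound w _ _ ht, n2⟩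
  unfold g1 at n1
  unfold g2 at n3
  simp only [hA, hB, hAB] at n1 n3
  exact n1 (e.2 n3)

/-- **Theorem.** The positions `S(1, 2·, 2)` and `S(3, 4·, 6)` do not decompose.  So decomposition
can fail outside the family `(2j, 2j, 2k')` with `j` odd. -/
theorem result :
    ¬ Decomposes 1 2 2 ∧ ¬ Decomposes 3 4 6 ∧
      ¬ ∀ k m n : ℕ, 0 < k → 0 < m → 0 < n →
        Decomposes k m n ∨ ∃ j k' : ℕ, Odd j ∧ k = 2 * j ∧ m = 2 * j ∧ n = 2 * k' := by
  have r1 : ¬ Decomposes 1 2 2 := by
    refine not_decomposes_of (w := .right) (A := 106496) (B := 1572864) (x := 4) (T := c1)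
      (U := d1) ?_ ?_ ?_ c1_ok d1_ok (by decide +kernel) (by decide +kernel)
    · rw [cells_eq _ (by norm_num)]; decide +kernel
    · rw [cells_eq _ (by norm_num)]; decide +kernel
    · rw [cells_eq _ (by norm_num)]; decide +kernel
  have r3 : ¬ Decomposes 3 4 6 := by
    refine not_decomposes_of (w := .left) (A := 2023424) (B := 528482304) (x := 3) (T := c3)
      (U := d3) ?_ ?_ ?_ c3_ok d3_ok (by decide +kernel) (by decide +kernel)
    · rw [cells_eq _ (by norm_num)]; decide +kernel
    · rw [cells_eq _ (by norm_num)]; decide +kernel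
    · rw [cells_eq _ (by norm_num)]; decide +kernel
  refine ⟨r1, r3, fun h => ?_⟩
  rcases h 3 4 6 (by norm_num) (by norm_num) (by norm_num) with h | ⟨j, k', -, h, -⟩
  · exact r3 h
  · omega

end Pool.Agent.Results.MP_914aa3_co.NoDecomposition
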